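import Pool.Agent.NH22.CF2

/-!
# Linear independence of `1, e, π`, or long windows in the continued fraction of `π`

Let `a_0, a_1, a_2, …` be the partial quotients of the regular continued fraction of `π`.

Either `1, e, π` are linearly independent over `ℚ`, or there is a length `W` such that
`max (a_n, …, a_(n+W-1)) → ∞` for `n → ∞`: from some point on every window of `W` consecutive partial
quotients of `π` contains a large one.

So `1, e, π` are linearly independent if for every `W` there are `t` and infinitely many windows of
length `W` in the continued fraction of `π` with all partial quotients `< t`; almost all real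
numbers have this property (already with `t = 2`: runs of `1` of every length).

The same is proved for every irrational number in place of `π`.
-/

set_option autoImplicit false

namespace Pool.Agent.Results.MP_58e087_nt.ContinuedFractionAlternative

/-- the partial quotient `a_n` of the regular continued fraction `x = [a_0; a_1, a_2, …]`: the
integer part of the `n`-th iterate of `y ↦ 1 / (y - ⌊y⌋)` at `x` -/
noncomputable def partialQuotient (x : ℝ) (n : ℕ) : ℤ := ⌊(fun y : ℝ => (Int.fract y)⁻¹)^[n] x⌋

/-- there is `W` such that for every `t`, from some point on, every window of `W` consecutive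
partial quotients contains one that is at least `t` -/
def WindowsUnbounded (x : ℝ) : Prop :=
  ∃ W : ℕ, ∀ t : ℤ, ∃ N : ℕ, ∀ n : ℕ, N ≤ n → ∃ i < W, t ≤ partialQuotient x (n + i)

theorem main (x : ℝ) (hx : Irrational x) :
    LinearIndependent ℚ ![(1 : ℝ), Real.exp 1, x] ∨ WindowsUnbounded x := by
  by_cases h : LinearIndependent ℚ ![(1 : ℝ), Real.exp 1, x]
  · exact Or.inl h
  · right
    rw [Pool.Agent.NH22.Lin.li_iff, not_not] at h
    obtain ⟨a, b, hab⟩ := h
    refine Pool.Agent.NH22.CF.windows hx (a := a.num * b.den) (b := b.num * a.den)
      (c := a.den * b.den) (d := 0) (Or.inl ?_) ?_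
    · exact_mod_cast mul_ne_zero a.den_nz b.den_nz
    · have ha' : (a : ℝ) = a.num / a.den := by exact_mod_cast (Rat.num_div_den a).symm
      have hb' : (b : ℝ) = b.num / b.den := by exact_mod_cast (Rat.num_div_den b).symm
      have hd' : ((a.den : ℕ) : ℝ) ≠ 0 := by exact_mod_cast a.den_nz
      have hd2' : ((b.den : ℕ) : ℝ) ≠ 0 := by exact_mod_cast b.den_nz
      rw [hab, ha', hb']
      push_cast
      field_simp
      ring

/-- Every irrational number `x`, in particular `π`, has one of these properties: `1, e, x` are
linearly independent over `ℚ`; or there is `W` such that for every `t` all but finitely many of the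
windows `a_n, …, a_(n+W-1)` of partial quotients of `x` contain a partial quotient `≥ t`. -/
theorem result :
    (∀ x : ℝ, Irrational x →
      LinearIndependent ℚ ![(1 : ℝ), Real.exp 1, x] ∨ WindowsUnbounded x) ∧
    (LinearIndependent ℚ ![(1 : ℝ), Real.exp 1, Real.pi] ∨ WindowsUnbounded Real.pi) :=
  ⟨main, main Real.pi irrational_pi⟩

end Pool.Agent.Results.MP_58e087_nt.ContinuedFractionAlternative
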