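import Pool.Agent.NH22.Den2

/-!
# The rate of density of the multiples of `(e, π)` modulo one

By Kronecker's theorem the numbers `1, e, π` are linearly independent over `ℚ` if and only if the
points `n (e, π)`, `n = 0, 1, 2, …`, are dense modulo one. We prove that there is a gap in the rate:
if the points are dense then for every `μ < (3 - √5) / 2 = 0.3819…` there are infinitely many `N`
such that every point of the torus is within `N^(-μ)` of one of the points `n (e, π)`, `n ≤ N`
(`N` points cannot do better than `N^(-1/2)`). The same is true for every real `x` in place of `π`.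

Proof. For consecutive best simultaneous approximations `q < q'` with the distance `L` of `q` the
points with `n ≤ 2 q'` are `(2 / (q' L) + L)`-dense, since two consecutive approximation vectors
can be completed to a basis of the lattice. If the points were never dense at the rate `N^(-μ)`,
this would give `L ≤ C q'^(-(1-μ))` for all best approximations, where `1 - μ > (√5 - 1) / 2`, and
three consecutive best approximations would be dependent by the irrationality exponent `2` of `e`
(as in `ExponentGaps`).
-/

set_option autoImplicit false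

namespace Pool.Agent.Results.MP_58e087_nt.DensityGap

open Filter

/-- for all real `s`, `t` there are a natural number `n ≤ N` and integers `a`, `b` with
`|n e - s - a| ≤ δ` and `|n x - t - b| ≤ δ`: every point of the torus is within `δ` of one of the
points `n (e, x)`, `0 ≤ n ≤ N` -/
def Covers (x : ℝ) (N : ℕ) (δ : ℝ) : Prop :=
  ∀ s t : ℝ, ∃ n : ℕ, n ≤ N ∧ ∃ a b : ℤ, |n * Real.exp 1 - s - a| ≤ δ ∧ |n * x - t - b| ≤ δ

/-- For every real number `x` the following statements are equivalent:
(1) `1, e, x` are linearly independent over `ℚ`;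
(2) the points `n (e, x)` are dense modulo one;
(3) for some `μ > 0` there are infinitely many `N` such that every point of the torus is within
`N^(-μ)` of one of the points `n (e, x)`, `n ≤ N`;
(4) for every `μ < (3 - √5) / 2` there are infinitely many `N` such that every point of the torus is
within `N^(-μ)` of one of the points `n (e, x)`, `n ≤ N`. -/
theorem result (x : ℝ) : List.TFAE [
    LinearIndependent ℚ ![(1 : ℝ), Real.exp 1, x],
    ∀ δ : ℝ, 0 < δ → ∃ N : ℕ, Covers x N δ,
    ∃ μ : ℝ, 0 < μ ∧ ∃ᶠ N : ℕ in atTop, Covers x N ((N : ℝ) ^ (-μ)),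
    ∀ μ : ℝ, μ < (3 - √5) / 2 → ∃ᶠ N : ℕ in atTop, Covers x N ((N : ℝ) ^ (-μ))] := by
  have hdep : LinearIndependent ℚ ![(1 : ℝ), Real.exp 1, x] ↔
      ¬ Pool.Agent.NH22.Gap.Dep (Real.exp 1) x := Pool.Agent.NH22.Lin.li_iff x
  have he := Pool.Agent.NH22.Sim.expTwo_e
  rw [hdep]
  tfae_have 1 → 4 := by
    intro h μ hμ
    rw [Filter.Frequently]
    intro h2
    exact h (Pool.Agent.NH22.Den.dep_of_sparse he hμ h2)
  tfae_have 4 → 3 := by
    intro h
    refine ⟨1 / 4, by norm_num, h (1 / 4) ?_⟩
    have h1 : √5 < 9 / 4 := by
      rw [Real.sqrt_lt' (by norm_num)]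
      norm_num
    linarith
  tfae_have 3 → 2 := by
    rintro ⟨μ, hμ, h⟩ δ hδ
    have h1 : Tendsto (fun N : ℕ => (N : ℝ) ^ (-μ)) atTop (nhds 0) :=
      (tendsto_rpow_neg_atTop hμ).comp tendsto_natCast_atTop_atTop
    obtain ⟨N, hN1, hN2⟩ := (h.and_eventually (h1.eventually_le_const hδ)).exists
    exact ⟨N, Pool.Agent.NH22.Den.Covers.mono hN1 hN2⟩
  tfae_have 2 → 1 := by
    intro h hd
    obtain ⟨δ, hδ, h1⟩ := Pool.Agent.NH22.Den.not_dense_of_dep hd
    obtain ⟨N, hN⟩ := h δ hδ
    exact h1 N hN
  tfae_finish

end Pool.Agent.Results.MP_58e087_nt.DensityGap
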