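import Pool.Agent.NH22.Seq

/-!
# One explicit sequence of integers decides the linear independence of `1, e, π`

Let `B_0 = B_1 = 1`, `B_(n+2) = (4 n + 6) B_(n+1) + B_n` (these are the denominators
`1, 1, 7, 71, 1001, …` of the convergents `1, 3, 19/7, 193/71, …` of `e`), let `M_n = n! B_n`, and
let `‖x‖` be the distance of `x` to the nearest integer.

(1) For every real number `x`: `x` lies in `ℚ + ℚ e` if and only if `limsup n² ‖M_n x‖ < 1/5`, and
then even `‖M_n x‖ = O(4^(-n))`.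

(2) `1, e, π` are linearly independent over `ℚ` if and only if for every `κ < 1/5` there are
infinitely many `n` with `n² ‖M_n π‖ > κ`; if they are linearly dependent then
`‖M_n π‖ = O(4^(-n))`.
-/

set_option autoImplicit false

namespace Pool.Agent.Results.MP_58e087_nt.ExplicitSequence

open Filter

/-- `B_0 = B_1 = 1`, `B_(n+2) = (4 n + 6) B_(n+1) + B_n` -/
def B : ℕ → ℕ
  | 0 => 1
  | 1 => 1
  | (n + 2) => (4 * n + 6) * B (n + 1) + B n

/-- `M_n = n! B_n` -/
def M (n : ℕ) : ℕ := n.factorial * B n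

/-- the distance of `x` to the nearest integer -/
noncomputable def dist1 (x : ℝ) : ℝ := |x - round x|

theorem B_eq : ∀ n : ℕ, B n = Pool.Agent.H43R2.Cplx.EMeas.q n ∧
    B (n + 1) = Pool.Agent.H43R2.Cplx.EMeas.q (n + 1) := by
  intro n
  induction n with
  | zero => exact ⟨rfl, rfl⟩
  | succ n ih =>
    refine ⟨ih.2, ?_⟩
    have h : Pool.Agent.H43R2.Cplx.EMeas.q (n + 1 + 1) =
      (4 * n + 6) * Pool.Agent.H43R2.Cplx.EMeas.q (n + 1) + Pool.Agent.H43R2.Cplx.EMeas.q n := rfl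
    have h' : B (n + 1 + 1) = (4 * n + 6) * B (n + 1) + B n := rfl
    rw [h, h', ih.1, ih.2]

theorem M_eq (n : ℕ) : M n = Pool.Agent.NH22.Seq.M n := by
  unfold M Pool.Agent.NH22.Seq.M
  rw [(B_eq n).1]

theorem up (x : ℝ) (h : ∃ a b : ℚ, x = a + b * Real.exp 1) :
    ∃ C : ℝ, ∀ n : ℕ, dist1 (M n * x) ≤ C / 4 ^ n := by
  obtain ⟨a, b, hx⟩ := h
  obtain ⟨C, hC⟩ := Pool.Agent.NH22.Seq.small_of_mem hx
  refine ⟨C, fun n => ?_⟩
  rw [M_eq]
  exact hC n

theorem down (x : ℝ) (κ : ℝ) (hκ : κ < 1 / 5)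
    (h : ∀ᶠ n : ℕ in atTop, (n : ℝ) ^ 2 * dist1 (M n * x) ≤ κ) :
    ∃ a b : ℚ, x = a + b * Real.exp 1 := by
  refine Pool.Agent.NH22.Seq.mem_of_small (κ := max κ 0) (le_max_right _ _)
    (max_lt hκ (by norm_num)) ?_
  filter_upwards [h] with n hn
  rw [M_eq] at hn
  exact hn.trans (le_max_left _ _)

/-- **(1)** For every real number `x` the following are equivalent: `x ∈ ℚ + ℚ e`; there is
`κ < 1/5` such that `n² ‖M_n x‖ ≤ κ` for all large `n`; there is `C` such that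
`‖M_n x‖ ≤ C / 4^n` for all `n`.

**(2)** `1, e, π` are linearly independent over `ℚ` if and only if for every `κ < 1/5` there are
infinitely many `n` with `n² ‖M_n π‖ > κ`. -/
theorem result :
    (∀ x : ℝ, List.TFAE [
      ∃ a b : ℚ, x = a + b * Real.exp 1,
      ∃ κ : ℝ, κ < 1 / 5 ∧ ∀ᶠ n : ℕ in atTop, (n : ℝ) ^ 2 * dist1 (M n * x) ≤ κ,
      ∃ C : ℝ, ∀ n : ℕ, dist1 (M n * x) ≤ C / 4 ^ n]) ∧
    (LinearIndependent ℚ ![(1 : ℝ), Real.exp 1, Real.pi] ↔
      ∀ κ : ℝ, κ < 1 / 5 → ∃ᶠ n : ℕ in atTop, κ < (n : ℝ) ^ 2 * dist1 (M n * Real.pi)) := by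
  refine ⟨fun x => ?_, ?_⟩
  · tfae_have 1 → 3 := up x
    tfae_have 3 → 2 := by
      rintro ⟨C, hC⟩
      refine ⟨1 / 10, by norm_num, ?_⟩
      have h := Pool.Agent.NH22.Seq.tend_four C
      filter_upwards [h.eventually_le_const (show (0 : ℝ) < 1 / 10 by norm_num)] with n hn
      exact (mul_le_mul_of_nonneg_left (hC n) (by positivity)).trans hn
    tfae_have 2 → 1 := fun ⟨κ, hκ, h⟩ => down x κ hκ h
    tfae_finish
  · rw [Pool.Agent.NH22.Lin.li_iff]
    constructor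
    · intro h κ hκ
      rw [Filter.Frequently]
      intro h2
      apply h
      refine down Real.pi κ hκ ?_
      filter_upwards [h2] with n hn
      exact not_lt.mp hn
    · rintro h hmem
      obtain ⟨C, hC⟩ := up _ hmem
      have h1 := Pool.Agent.NH22.Seq.tend_four C
      have h2 := h (1 / 10) (by norm_num)
      obtain ⟨n, hn1, hn2⟩ := (h2.and_eventually
        (h1.eventually_le_const (show (0 : ℝ) < 1 / 10 by norm_num))).exists
      have h3 := mul_le_mul_of_nonneg_left (hC n) (show (0 : ℝ) ≤ (n : ℝ) ^ 2 by positivity)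
      linarith

end Pool.Agent.Results.MP_58e087_nt.ExplicitSequence
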