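import Pool.Agent.NH22.Gap

/-!
# Gaps in the exponents of approximation attached to `1, e, π`

For the triple `1, e, π` consider

* the uniform exponent `λ` of simultaneous rational approximation: for all large `X` there are
  integers `1 ≤ q ≤ X`, `p`, `r` with `|q e - p|, |q π - r| ≤ X^(-λ)`;
* the uniform exponent `ω` of linear forms: for all large `X` there are integers `a, b, c`, not all
  zero, of absolute value at most `X` with `|a + b e + c π| ≤ X^(-ω)`;
* the exponent of the nonvanishing linear forms: `|a + b e + c π| ≥ c₀ max(|a|,|b|,|c|)^(-ω)` whenever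
  `a + b e + c π ≠ 0`.

If `1, e, π` are linearly dependent over `ℚ` then `λ = 1` (even with the bound `C / X`), `ω` is
arbitrarily large and the third exponent is `1`. We prove that linear dependence follows as soon as
`λ > (√5 - 1) / 2 = 0.618…`, or `ω > (3 + √5) / 2 = 2.618…`, or the third exponent is `< 2`. So each
of the exponents has a gap, in which it cannot lie, and the linear independence of `1, e, π` is
equivalent to each of three statements which are quantitatively much weaker than the expected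
values `1/2`, `2`, `2`.

Proof: three consecutive best approximations which are linearly independent are combined with the
irrationality exponent `2` of `e`.
-/

set_option autoImplicit false

namespace Pool.Agent.Results.MP_58e087_nt.ExponentGaps

/-- the value `a + b e + c π` -/
noncomputable def form (a b c : ℤ) : ℝ := a + b * Real.exp 1 + c * Real.pi

/-- `max(|a|, |b|, |c|)` -/
noncomputable def height (a b c : ℤ) : ℝ := max (max |(a : ℝ)| |(b : ℝ)|) |(c : ℝ)|

/-- there are integers `1 ≤ q ≤ X`, `p`, `r` with `|q e - p| ≤ δ` and `|q π - r| ≤ δ` -/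
def Simultaneous (X δ : ℝ) : Prop :=
  ∃ q p r : ℤ, 1 ≤ q ∧ (q : ℝ) ≤ X ∧ |q * Real.exp 1 - p| ≤ δ ∧ |q * Real.pi - r| ≤ δ

/-- there are integers `a, b, c`, not all zero, with `max(|a|, |b|, |c|) ≤ X` and
`|a + b e + c π| ≤ δ` -/
def SmallForm (X δ : ℝ) : Prop :=
  ∃ a b c : ℤ, ¬ (a = 0 ∧ b = 0 ∧ c = 0) ∧ height a b c ≤ X ∧ |form a b c| ≤ δ

/-- The following statements are equivalent:
(1) `1, e, π` are linearly dependent over `ℚ`;
(2) there is `C` such that for all `X ≥ 1` there are integers `1 ≤ q ≤ X`, `p`, `r` with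
`|q e - p|, |q π - r| ≤ C / X`;
(3) there is `λ > (√5 - 1) / 2` such that for all large `X` there are integers `1 ≤ q ≤ X`, `p`, `r`
with `|q e - p|, |q π - r| ≤ X^(-λ)`;
(4) there is `ω > (3 + √5) / 2` such that for all large `X` there are integers `a, b, c`, not all
zero and of absolute value `≤ X`, with `|a + b e + c π| ≤ X^(-ω)`;
(5) there are `ω < 2` and `c₀ > 0` such that `|a + b e + c π| ≥ c₀ max(|a|, |b|, |c|)^(-ω)` for all
integers `a, b, c` with `a + b e + c π ≠ 0`;
(6) for every `ε > 0` there is `c₀ > 0` such that `|a + b e + c π| ≥ c₀ max(|a|, |b|, |c|)^(-1-ε)`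
for all integers `a, b, c` with `a + b e + c π ≠ 0`. -/
theorem result : List.TFAE [
    ¬ LinearIndependent ℚ ![(1 : ℝ), Real.exp 1, Real.pi],
    ∃ C : ℝ, ∀ X : ℝ, 1 ≤ X → Simultaneous X (C / X),
    ∃ lam : ℝ, (√5 - 1) / 2 < lam ∧ ∃ X₀ : ℝ, ∀ X : ℝ, X₀ ≤ X → Simultaneous X (X ^ (-lam)),
    ∃ om : ℝ, (3 + √5) / 2 < om ∧ ∃ X₀ : ℝ, ∀ X : ℝ, X₀ ≤ X → SmallForm X (X ^ (-om)),
    ∃ om : ℝ, om < 2 ∧ ∃ c₀ : ℝ, 0 < c₀ ∧
      ∀ a b c : ℤ, form a b c ≠ 0 → c₀ * height a b c ^ (-om) ≤ |form a b c|,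
    ∀ ε : ℝ, 0 < ε → ∃ c₀ : ℝ, 0 < c₀ ∧
      ∀ a b c : ℤ, form a b c ≠ 0 → c₀ * height a b c ^ (-(1 + ε)) ≤ |form a b c|] := by
  have hdep : ¬ LinearIndependent ℚ ![(1 : ℝ), Real.exp 1, Real.pi] ↔
      Pool.Agent.NH22.Gap.Dep (Real.exp 1) Real.pi := by
    rw [Pool.Agent.NH22.Lin.li_iff, not_not]
    rfl
  have he := Pool.Agent.NH22.Sim.expTwo_e
  rw [hdep]
  tfae_have 1 → 2 := fun h => Pool.Agent.NH22.Gap.a_b h
  tfae_have 2 → 3 := fun h => Pool.Agent.NH22.Gap.b_c h
  tfae_have 3 → 1 := fun h => Pool.Agent.NH22.Gap.c_a he h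
  tfae_have 1 → 4 := fun h => Pool.Agent.NH22.Gap.a_d h
  tfae_have 4 → 1 := fun h => Pool.Agent.NH22.Gap.d_a he h
  tfae_have 1 → 6 := fun h => Pool.Agent.NH22.Gap.a_f he h
  tfae_have 6 → 5 := by
    intro h
    obtain ⟨c₀, hc₀, h1⟩ := h (1 / 2) (by norm_num)
    refine ⟨3 / 2, by norm_num, c₀, hc₀, fun a b c hne => ?_⟩
    have := h1 a b c hne
    rwa [show (1 + 1 / 2 : ℝ) = 3 / 2 by norm_num] at this
  tfae_have 5 → 1 := fun h => Pool.Agent.NH22.Gap.e_a he h
  tfae_finish

end Pool.Agent.Results.MP_58e087_nt.ExponentGaps
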